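import Pool.Agent.H7.RhoV.Tail2
import Pool.Agent.H7.PNTE.Z7

/-!
# The expected number of survivors, with smooth parts up to `u^2 / v^2`
-/

set_option autoImplicit false

open Finset Real
open Pool.Agent.H85.Rho hiding PP MM TT

namespace RhoV

open RhoU

/-- `T(y) = u^2 / v^2`, `u = log y`, `v = log log y` -/
noncomputable def TV (y : ℝ) : ℝ := (Real.log y) ^ 2 / (Real.log (Real.log y)) ^ 2

/-- `⌊T(y)⌋` -/
noncomputable def MV (y : ℕ) : ℕ := ⌊TV y⌋₊

/-- `⌊y / T(y)⌋` -/
noncomputable def PV (y : ℕ) : ℕ := ⌊(y : ℝ) / TV y⌋₊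

/-- the smoothness parameter -/
noncomputable def wV (y : ℕ) : ℕ := ⌊(Real.log (Real.log y)) ^ 2 / 10 ^ 6⌋₊

theorem survivors_v :
    ∃ K : ℝ, ∀ᶠ y : ℕ in Filter.atTop, wV y ≤ PV y ∧
      (Nat.primeCounting y : ℝ) + (2 * Real.log (Real.log (Real.log y)) - K) * y / (Real.log y) ^ 2 ≤
      ∑ m ∈ Sm (wV y) (MV y), fw (wV y) m *
        ((Nat.primeCounting (y / m) : ℝ) - Nat.primeCounting (PV y)) := by
  obtain ⟨C, x0, hC, hpi⟩ := PNTE.pi_pnt
  obtain ⟨Cg, hCg, hgain⟩ := gain_v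
  refine ⟨Cg + 5 * C + 20, ?_⟩
  have hll : Filter.Tendsto (fun y : ℕ => Real.log (Real.log (y : ℝ))) Filter.atTop Filter.atTop :=
    Real.tendsto_log_atTop.comp tendsto_logN
  filter_upwards [hll.eventually ev_tail, ev_pow 2 (1 / 4) (by norm_num) 1,
    tendsto_logN.eventually_ge_atTop (2 * Real.log (max x0 2)),
    tendsto_logN.eventually_ge_atTop 100, Filter.eventually_ge_atTop 3,
    hll.eventually_ge_atTop (10 ^ 7)] with y htail hu2 hux hu100 hy3 hv8
  set u : ℝ := Real.log (y : ℝ) with hu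
  set v : ℝ := Real.log u with hv'
  have hv0 : 0 < v := by linarith
  have hu0 : 0 < u := by linarith
  have hy0 : (0 : ℝ) < y := by
    have : 0 < y := by omega
    exact_mod_cast this
  have hyexp : Real.exp u = y := Real.exp_log hy0
  have huexp : Real.exp v = u := Real.exp_log hu0
  have hvu : v ≤ u := by
    have := Real.add_one_le_exp v
    rw [huexp] at this
    linarith
  -- `v^2 ≤ u`
  have hv2u : v ^ 2 ≤ u := by
    have h1 := Real.pow_div_factorial_le_exp v hv0.le 3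
    rw [huexp] at h1
    have h2 : v ^ 3 / (Nat.factorial 3 : ℝ) = v ^ 2 * (v / 6) := by
      norm_num [Nat.factorial]
      ring
    rw [h2] at h1
    have h3 : 1 ≤ v / 6 := by linarith
    have h4 : 0 ≤ v ^ 2 := by positivity
    nlinarith
  set w : ℕ := wV y with hw
  have hwle : (w : ℝ) ≤ v ^ 2 / 10 ^ 6 := Nat.floor_le (by positivity)
  have hwgt : v ^ 2 / 10 ^ 6 < w + 1 := Nat.lt_floor_add_one _
  have hwv : v ≤ w := by
    have h1 : v * 10 ≤ v ^ 2 / 10 ^ 6 := by
      rw [le_div_iff₀ (by norm_num)]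
      nlinarith
    linarith
  have hw2R : (2 : ℝ) ≤ w := by linarith
  have hw2 : 2 ≤ w := by exact_mod_cast hw2R
  -- `T`
  set T : ℝ := TV y with hT
  have hTdef : T = u ^ 2 / v ^ 2 := rfl
  have hT0 : 0 < T := by rw [hTdef]; positivity
  have hTu2 : T ≤ u ^ 2 := by
    rw [hTdef]
    apply div_le_self (by positivity)
    nlinarith
  have hTu : u ≤ T := by
    rw [hTdef, le_div_iff₀ (by positivity)]
    nlinarith
  -- `u^2 ≤ exp(u/4)`
  rw [one_mul] at hu2
  have hsq : u ^ 2 ≤ Real.exp (1 / 4 * u) := hu2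
  have hyT : Real.exp (u / 2) ≤ y / T := by
    rw [le_div_iff₀ hT0, ← hyexp]
    calc Real.exp (u / 2) * T ≤ Real.exp (u / 2) * Real.exp (1 / 4 * u) := by
          apply mul_le_mul_of_nonneg_left _ (Real.exp_pos _).le
          linarith
      _ = Real.exp (3 / 4 * u) := by rw [← Real.exp_add]; congr 1; ring
      _ ≤ Real.exp u := Real.exp_le_exp.mpr (by linarith)
  have hexpx0 : max x0 2 ≤ Real.exp (u / 2) := by
    have h2 : 0 < max x0 2 := lt_of_lt_of_le (by norm_num) (le_max_right _ _)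
    rw [← Real.log_le_iff_le_exp h2]
    linarith
  have hx0e : x0 ≤ Real.exp (u / 2) := (le_max_left _ _).trans hexpx0
  have h2e : 2 ≤ Real.exp (u / 2) := (le_max_right _ _).trans hexpx0
  have hyx0 : x0 ≤ y := by
    rw [← hyexp]
    exact hx0e.trans (Real.exp_le_exp.mpr (by linarith))
  -- `M`
  set M : ℕ := MV y with hM
  have hMle : (M : ℝ) ≤ T := Nat.floor_le hT0.le
  have hMgt : T < M + 1 := Nat.lt_floor_add_one _
  have hM2' : (2 : ℝ) ≤ M := by linarith
  have hM2 : 2 ≤ M := by exact_mod_cast hM2'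
  have hM0 : (0 : ℝ) < M := by linarith
  have hMT2 : T / 2 ≤ M := by linarith
  have hlogM : Real.log M ≤ 2 * v := by
    calc Real.log M ≤ Real.log (u ^ 2) := Real.log_le_log hM0 (hMle.trans hTu2)
      _ = 2 * v := by rw [Real.log_pow]; push_cast; rfl
  have hlogM0 : 0 ≤ Real.log M := Real.log_natCast_nonneg M
  -- Rankin
  obtain ⟨s, hs0, hs1, hB⟩ := htail w M hwle hwv (by
    refine le_trans (le_of_eq ?_) hMT2
    rw [hTdef, ← huexp, ← Real.exp_nat_mul]
    push_cast
    field_simp)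
  set B : ℝ := Real.exp (-v) / v ^ 2 with hBdef
  have hBu : B = 1 / (u * v ^ 2) := by
    rw [hBdef, Real.exp_neg, huexp]
    field_simp
  have hB0 : 0 < B := by rw [hBu]; positivity
  obtain ⟨ht1, ht2, ht3⟩ := tails (by omega : 1 ≤ M) hs0 hs1 hB
  have hBle : B ≤ 1 / u := by
    rw [hBu]
    apply one_div_le_one_div_of_le hu0
    nlinarith
  -- mass
  set A1 : ℝ := ∑ m ∈ Sm w M, fw w m / m with hA1
  have hA1up : A1 ≤ 1 := mass_upper w M
  have hA10 : 0 ≤ A1 := sum_nonneg fun m _ => div_nonneg (fw_nonneg w m) (Nat.cast_nonneg _)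
  have hA1lo : 1 - 1 / u ≤ A1 := by
    have := mass_v ht1
    linarith
  -- gain
  set A2 : ℝ := ∑ m ∈ Sm w M, fw w m / m * Real.log m with hA2
  have hA2lo : Real.log w - Cg - 1 ≤ A2 := by
    have h1 := hgain w M _ (by omega) ht2
    have h2 : (Real.log M + 2) * B ≤ 1 := by
      calc (Real.log M + 2) * B ≤ (2 * v + 2) * B := by gcongr
        _ = (2 * v + 2) / (u * v ^ 2) := by rw [hBu]; ring
        _ ≤ 1 := by
            rw [div_le_one (by positivity)]
            have : v ^ 2 * 1 ≤ v ^ 2 * u := by gcongr; linarith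
            nlinarith
    linarith
  have hlogw : 2 * Real.log v - 16 ≤ Real.log w := by
    have h1 : v ^ 2 / (2 * 10 ^ 6) ≤ w := by
      have e : v ^ 2 / (2 * 10 ^ 6) = v ^ 2 / 10 ^ 6 / 2 := by ring
      rw [e]
      linarith
    have h2 : Real.log (v ^ 2 / (2 * 10 ^ 6)) ≤ Real.log w := Real.log_le_log (by positivity) h1
    rw [Real.log_div (by positivity) (by norm_num), Real.log_pow] at h2
    have h3 : Real.log (2 * 10 ^ 6) ≤ 16 := by
      rw [Real.log_le_iff_le_exp (by norm_num)]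
      have h4 : (2.7 : ℝ) ^ 16 ≤ Real.exp 1 ^ 16 := by
        apply pow_le_pow_left₀ (by norm_num)
        have := Real.exp_one_gt_d9
        linarith
      rw [← Real.exp_nat_mul] at h4
      calc (2 * 10 ^ 6 : ℝ) ≤ 2.7 ^ 16 := by norm_num
        _ ≤ _ := h4
        _ = Real.exp 16 := by norm_num
    push_cast at h2
    linarith
  -- the primes up to `P`
  set P : ℕ := PV y with hP
  have hPub : (Nat.primeCounting P : ℝ) * ∑ m ∈ Sm w M, fw w m ≤ y / u ^ 2 := by
    have hx2 : 2 ≤ (y : ℝ) / T := h2e.trans hyT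
    have h1 := pi_le_five hx2
    have h2 : u / 2 ≤ Real.log (y / T) := by
      rw [Real.le_log_iff_exp_le (by positivity)]; exact hyT
    have h3 : (Nat.primeCounting P : ℝ) ≤ 10 * (y / T) / u := by
      refine h1.trans ?_
      calc 5 * ((y : ℝ) / T) / Real.log (y / T) ≤ 5 * ((y : ℝ) / T) / (u / 2) := by gcongr
        _ = _ := by field_simp; ring
    have h4 : ∑ m ∈ Sm w M, fw w m ≤ T * B := ht3.trans (mul_le_mul_of_nonneg_right hMle hB0.le)
    calc (Nat.primeCounting P : ℝ) * ∑ m ∈ Sm w M, fw w m ≤ (10 * (y / T) / u) * (T * B) :=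
          mul_le_mul h3 h4 (sum_nonneg fun m _ => fw_nonneg w m) (by positivity)
      _ = (y / u ^ 2) * (10 / v ^ 2) := by rw [hBu]; field_simp
      _ ≤ (y / u ^ 2) * 1 := by
          apply mul_le_mul_of_nonneg_left _ (by positivity)
          rw [div_le_one (by positivity)]
          nlinarith
      _ = y / u ^ 2 := mul_one _
  -- the primes up to `y / m`
  have hterm : ∀ m ∈ Sm w M, fw w m / m * (y * (1 / u + Real.log m / u ^ 2 - 4 * C / u ^ 2)) ≤
      fw w m * (Nat.primeCounting (y / m) : ℝ) := by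
    intro m hm
    rw [mem_Sm] at hm
    have hm1 : (1 : ℝ) ≤ m := by exact_mod_cast hm.1.1
    have hm0 : (0 : ℝ) < m := by linarith
    have hmT : (m : ℝ) ≤ T := le_trans (by exact_mod_cast hm.1.2) hMle
    have hym : Real.exp (u / 2) ≤ (y : ℝ) / m := hyT.trans (by gcongr)
    have h1 := hpi ((y : ℝ) / m) (hx0e.trans hym)
    rw [Nat.floor_div_eq_div] at h1
    have h2 := (abs_le.mp h1).1
    have hl : Real.log ((y : ℝ) / m) = u - Real.log m := by
      rw [Real.log_div hy0.ne' hm0.ne']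
    have hl2 : u / 2 ≤ Real.log ((y : ℝ) / m) := by
      rw [Real.le_log_iff_exp_le (by positivity)]; exact hym
    have hl0 : 0 < Real.log ((y : ℝ) / m) := by linarith
    have hlm : 0 ≤ Real.log m := Real.log_nonneg hm1
    have h3 : ((y : ℝ) / m) * (1 / u + Real.log m / u ^ 2) ≤ ((y : ℝ) / m) / Real.log ((y : ℝ) / m) := by
      rw [le_div_iff₀ hl0, mul_assoc]
      apply mul_le_of_le_one_right (by positivity)
      rw [hl]
      have e : (1 / u + Real.log m / u ^ 2) * (u - Real.log m) = 1 - (Real.log m) ^ 2 / u ^ 2 := by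
        field_simp
        ring
      rw [e]
      have : 0 ≤ (Real.log m) ^ 2 / u ^ 2 := by positivity
      linarith
    have h4 : C * ((y : ℝ) / m) / (Real.log ((y : ℝ) / m)) ^ 2 ≤ ((y : ℝ) / m) * (4 * C / u ^ 2) := by
      have h5 : (u / 2) ^ 2 ≤ (Real.log ((y : ℝ) / m)) ^ 2 := pow_le_pow_left₀ (by positivity) hl2 2
      calc C * ((y : ℝ) / m) / (Real.log ((y : ℝ) / m)) ^ 2 ≤ C * ((y : ℝ) / m) / (u / 2) ^ 2 := by
            gcongr
        _ = _ := by field_simp; ring
    have h6 : ((y : ℝ) / m) * (1 / u + Real.log m / u ^ 2 - 4 * C / u ^ 2) ≤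
        (Nat.primeCounting (y / m) : ℝ) := by
      have e : ((y : ℝ) / m) * (1 / u + Real.log m / u ^ 2 - 4 * C / u ^ 2) =
        ((y : ℝ) / m) * (1 / u + Real.log m / u ^ 2) - ((y : ℝ) / m) * (4 * C / u ^ 2) := by ring
      rw [e]
      linarith
    calc fw w m / m * (y * (1 / u + Real.log m / u ^ 2 - 4 * C / u ^ 2)) =
          fw w m * (((y : ℝ) / m) * (1 / u + Real.log m / u ^ 2 - 4 * C / u ^ 2)) := by
          field_simp
      _ ≤ _ := mul_le_mul_of_nonneg_left h6 (fw_nonneg w m)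
  have hsum1 : y * (1 / u - 4 * C / u ^ 2) * A1 + y / u ^ 2 * A2 ≤
      ∑ m ∈ Sm w M, fw w m * (Nat.primeCounting (y / m) : ℝ) := by
    refine le_trans (le_of_eq ?_) (sum_le_sum hterm)
    rw [hA1, hA2, mul_sum, mul_sum, ← sum_add_distrib]
    apply sum_congr rfl
    intro m _
    ring
  have hsum2 : ∑ m ∈ Sm w M, fw w m * ((Nat.primeCounting (y / m) : ℝ) - Nat.primeCounting P) ≥
      ∑ m ∈ Sm w M, fw w m * (Nat.primeCounting (y / m) : ℝ) - y / u ^ 2 := by
    have e : ∑ m ∈ Sm w M, fw w m * ((Nat.primeCounting (y / m) : ℝ) - Nat.primeCounting P) =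
        ∑ m ∈ Sm w M, fw w m * (Nat.primeCounting (y / m) : ℝ) -
          (Nat.primeCounting P : ℝ) * ∑ m ∈ Sm w M, fw w m := by
      rw [mul_sum, ← sum_sub_distrib]
      apply sum_congr rfl
      intro m _
      ring
    rw [e]
    linarith
  have hpiy : (Nat.primeCounting y : ℝ) ≤ y / u + C * y / u ^ 2 := by
    have h1 := hpi (y : ℝ) hyx0
    rw [Nat.floor_natCast, ← hu] at h1
    have h2 := (abs_le.mp h1).2
    linarith
  refine ⟨?_, ?_⟩
  · have h1 : (w : ℝ) ≤ y / T := by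
      have h2 : (w : ℝ) ≤ v ^ 2 := by
        have : v ^ 2 / 10 ^ 6 ≤ v ^ 2 := div_le_self (by positivity) (by norm_num)
        linarith
      have h4 : u ≤ Real.exp (1 / 4 * u) := by nlinarith
      have h5 : Real.exp (1 / 4 * u) ≤ Real.exp (u / 2) := Real.exp_le_exp.mpr (by linarith)
      linarith
    exact Nat.le_floor h1
  · have hR0 : 0 ≤ (y : ℝ) / u ^ 2 := by positivity
    have h1 : y * (1 / u - 4 * C / u ^ 2) * A1 ≥ y / u - y / u ^ 2 - 4 * C * (y / u ^ 2) := by
      have h2 : y * (1 / u - 4 * C / u ^ 2) * A1 = (y / u) * A1 - 4 * C * (y / u ^ 2) * A1 := by ring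
      have h3 : (y / u) * (1 - 1 / u) ≤ (y / u) * A1 := mul_le_mul_of_nonneg_left hA1lo (by positivity)
      have h4 : (y / u) * (1 - 1 / u) = y / u - y / u ^ 2 := by field_simp
      have h5 : 4 * C * (y / u ^ 2) * A1 ≤ 4 * C * (y / u ^ 2) :=
        mul_le_of_le_one_right (by positivity) hA1up
      rw [h2]
      linarith
    have h2 : y / u ^ 2 * A2 ≥ y / u ^ 2 * (2 * Real.log v - 16 - Cg - 1) :=
      mul_le_mul_of_nonneg_left (by linarith) hR0
    have e : (2 * Real.log v - (Cg + 5 * C + 20)) * y / u ^ 2 =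
        (2 * Real.log v - (Cg + 5 * C + 20)) * (y / u ^ 2) := by ring
    have e2 : C * y / u ^ 2 = C * (y / u ^ 2) := by ring
    rw [e]
    rw [e2] at hpiy
    nlinarith

end RhoV
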