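import Pool.Agent.H7.RhoV.SurvV
import Pool.Agent.H7.RhoU.Final
import Pool.Agent.H14.Rho2.Del

/-!
# Dense admissible sets: `π(y) + (2 log log log y - C) y / (log y)^2`
-/

set_option autoImplicit false

open Finset Real
open Pool.Agent.H85.Rho hiding PP MM TT

namespace RhoV

open RhoU

/-- the assembly for one `y` -/
theorem assembleV {y w M P : ℕ} {g c : ℝ} (hwP : w ≤ P)
    (hQ : (Nat.primeCounting y : ℝ) + (g + c) * y / (Real.log y) ^ 2 ≤ QQ y)
    (hmain : (Nat.primeCounting y : ℝ) + (g + c) * y / (Real.log y) ^ 2 ≤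
      ∑ m ∈ Sm w M, fw w m * ((Nat.primeCounting (y / m) : ℝ) - Nat.primeCounting P))
    (hdel : ∀ S : Finset ℕ, S ⊆ Finset.Icc 1 y → (S.card : ℝ) ≤ 8 * y / Real.log y →
      ∃ D : Finset ℕ, D ⊆ S ∧ (D.card : ℝ) ≤ c * y / (Real.log y) ^ 2 ∧
        ∀ q : ℕ, q.Prime → P < q → q ≤ y → ∃ r : ℕ, ∀ n ∈ S, n ≡ r [MOD q] → n ∈ D) :
    ∃ A : Finset ℕ, A ⊆ Finset.Icc 1 y ∧ Adm A ∧
      (Nat.primeCounting y : ℝ) + g * y / (Real.log y) ^ 2 ≤ A.card := by
  classical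
  set N := NN w M P y with hN
  obtain ⟨a, ha, haN⟩ := exists_classes N w
  set S0 := N.filter (fun n => ∀ p ∈ pr 0 w, ¬ n ≡ a p [MOD p]) with hS0def
  have hScard : (Nat.primeCounting y : ℝ) + (g + c) * y / (Real.log y) ^ 2 ≤ S0.card :=
    hmain.trans ((sum_NN hwP).trans haN)
  obtain ⟨S, hSS0, hScard'⟩ := Finset.exists_subset_card_eq (s := S0) (n := min S0.card (QQ y))
    (min_le_left _ _)
  have hSN : S ⊆ N := hSS0.trans (Finset.filter_subset _ _)
  have hSy : S ⊆ Finset.Icc 1 y := fun n hn => (NN_bd (hSN hn)).1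
  have hS8 : (S.card : ℝ) ≤ 8 * y / Real.log y := by
    have h1 : (S.card : ℝ) ≤ QQ y := by
      rw [hScard']
      exact_mod_cast min_le_right _ _
    refine h1.trans (Nat.floor_le ?_)
    exact div_nonneg (by positivity) (Real.log_natCast_nonneg y)
  have hSlow : (Nat.primeCounting y : ℝ) + (g + c) * y / (Real.log y) ^ 2 ≤ S.card := by
    rw [hScard', Nat.cast_min]
    exact le_min hScard hQ
  obtain ⟨D, hDS, hDcard, hD⟩ := hdel S hSy hS8
  refine ⟨S \ D, Finset.sdiff_subset.trans hSy, ?_, ?_⟩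
  · intro p hp
    by_cases hp1 : p ≤ w
    · refine ⟨a p, fun n hn => ?_⟩
      have h4 := (Finset.mem_filter.1 (hSS0 (Finset.mem_sdiff.1 hn).1)).2
      exact h4 p (mem_pr.2 ⟨⟨hp.pos, hp1⟩, hp⟩)
    · by_cases hp2 : p ≤ P
      · refine ⟨0, fun n hn hn0 => ?_⟩
        have h4 := (NN_bd (hSN (Finset.mem_sdiff.1 hn).1)).2 p (mem_pr.2 ⟨⟨by omega, hp2⟩, hp⟩)
        exact h4 ((Nat.modEq_zero_iff_dvd).1 hn0)
      · by_cases hp3 : p ≤ y
        · obtain ⟨r, hr⟩ := hD p hp (by omega) hp3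
          refine ⟨r, fun n hn hnr => ?_⟩
          exact (Finset.mem_sdiff.1 hn).2 (hr n (Finset.mem_sdiff.1 hn).1 hnr)
        · refine ⟨0, fun n hn hn0 => ?_⟩
          have h4 := Finset.mem_Icc.1 (hSy (Finset.mem_sdiff.1 hn).1)
          have h5 := Nat.le_of_dvd (by omega) ((Nat.modEq_zero_iff_dvd).1 hn0)
          omega
  · have h1 : ((S \ D).card : ℝ) = S.card - D.card := by
      rw [Finset.card_sdiff_of_subset hDS, Nat.cast_sub (Finset.card_le_card hDS)]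
    rw [h1]
    have e : (g + c) * (y : ℝ) / (Real.log y) ^ 2 = g * y / (Real.log y) ^ 2 +
        c * y / (Real.log y) ^ 2 := by ring
    rw [e] at hSlow
    linarith

/-- the deletion statement for one `y` -/
def DelAt (c : ℝ) (y : ℕ) : Prop :=
  ∀ S : Finset ℕ, S ⊆ Finset.Icc 1 y → (S.card : ℝ) ≤ 8 * y / Real.log y →
    ∃ D : Finset ℕ, D ⊆ S ∧ (D.card : ℝ) ≤ c * y / (Real.log y) ^ 2 ∧
      ∀ q : ℕ, q.Prime → (y : ℝ) * (Real.log (Real.log y)) ^ 2 / (Real.log y) ^ 2 < q → q ≤ y →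
        ∃ r : ℕ, r < q ∧ ∀ n ∈ S, n % q = r → n ∈ D

theorem dense_V_of {c : ℝ} (hdel : ∀ᶠ y : ℕ in Filter.atTop, DelAt c y) :
    ∃ C : ℝ, ∀ᶠ y : ℕ in Filter.atTop,
    ∃ A : Finset ℕ, A ⊆ Finset.Icc 1 y ∧ Adm A ∧
      (Nat.primeCounting y : ℝ) + (2 * Real.log (Real.log (Real.log y)) - C) * y /
        (Real.log y) ^ 2 ≤ A.card := by
  obtain ⟨K, hS⟩ := survivors_v
  have hll : Filter.Tendsto (fun y : ℕ => Real.log (Real.log (y : ℝ))) Filter.atTop Filter.atTop :=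
    Real.tendsto_log_atTop.comp tendsto_logN
  have hsmall : ∀ᶠ u : ℝ in Filter.atTop, 2 * Real.log (Real.log u) - K ≤ u := by
    have h1 := (isLittleO_log_id_atTop).bound (c := 1 / 4) (by norm_num)
    filter_upwards [h1, Filter.eventually_ge_atTop (2 * |K|), Filter.eventually_ge_atTop 3]
      with u h2 h3 h4
    simp only [id, Real.norm_eq_abs] at h2
    rw [abs_of_nonneg (show 0 ≤ u by linarith)] at h2
    have h5 := (le_abs_self _).trans h2
    have h6 : 0 < Real.log u := Real.log_pos (by linarith)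
    have h7 := Real.log_le_sub_one_of_pos h6
    have h8 := neg_abs_le K
    linarith
  refine ⟨K + c, ?_⟩
  filter_upwards [hS, hdel, QQ_ge_u, tendsto_logN.eventually hsmall, Filter.eventually_ge_atTop 1,
    tendsto_logN.eventually_ge_atTop 1, hll.eventually_ge_atTop 1]
    with y ⟨hwP, hmain⟩ hd hQ hs hy1 hl1 hl2
  have e : 2 * Real.log (Real.log (Real.log (y : ℝ))) - (K + c) + c =
      2 * Real.log (Real.log (Real.log (y : ℝ))) - K := by ring
  refine assembleV (w := wV y) (M := MV y) (P := PV y) (c := c) hwP ?_ ?_ ?_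
  · rw [e]
    exact hQ _ hs
  · rw [e]
    exact hmain
  · intro S hSy hS8
    obtain ⟨D, hDS, hDc, hD⟩ := hd S hSy hS8
    refine ⟨D, hDS, hDc, fun q hq hPq hqy => ?_⟩
    have h1 : (y : ℝ) * (Real.log (Real.log y)) ^ 2 / (Real.log y) ^ 2 < q := by
      have h2 : (y : ℝ) / TV y < q := by
        have h3 : (y : ℝ) / TV y < PV y + 1 := Nat.lt_floor_add_one _
        have h4 : ((PV y : ℕ) : ℝ) + 1 ≤ q := by exact_mod_cast hPq
        linarith
      refine lt_of_le_of_lt (le_of_eq ?_) h2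
      unfold TV
      rw [div_div_eq_mul_div]
    obtain ⟨r, hr, hrD⟩ := hD q hq h1 hqy
    refine ⟨r, fun n hn hnr => hrD n hn ?_⟩
    have h2 : n % q = r % q := hnr
    rw [h2, Nat.mod_eq_of_lt hr]

theorem delAt_ev : ∀ᶠ y : ℕ in Filter.atTop, DelAt 17 y := by
  filter_upwards [Rho2.deletion] with y hy S hS hSc
  obtain ⟨D, h1, h2, h3⟩ := hy S hS hSc
  exact ⟨D, h1, h2, fun q hq hPq hqy => h3 q hq hPq hqy⟩

/-- **Dense admissible sets.** -/
theorem dense_V : ∃ C : ℝ, ∀ᶠ y : ℕ in Filter.atTop,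
    ∃ A : Finset ℕ, A ⊆ Finset.Icc 1 y ∧ Adm A ∧
      (Nat.primeCounting y : ℝ) + (2 * Real.log (Real.log (Real.log y)) - C) * y /
        (Real.log y) ^ 2 ≤ A.card :=
  dense_V_of delAt_ev

theorem dense_lt {c : ℝ} (hc : c < 2) : ∀ᶠ y : ℕ in Filter.atTop,
    ∃ A : Finset ℕ, A ⊆ Finset.Icc 1 y ∧ Adm A ∧
      (Nat.primeCounting y : ℝ) + c * Real.log (Real.log (Real.log y)) * y / (Real.log y) ^ 2 ≤
        A.card := by
  obtain ⟨C, hC⟩ := dense_V
  have hlll : Filter.Tendsto (fun y : ℕ => Real.log (Real.log (Real.log (y : ℝ)))) Filter.atTop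
      Filter.atTop := Real.tendsto_log_atTop.comp (Real.tendsto_log_atTop.comp tendsto_logN)
  have hbig : ∀ᶠ y : ℕ in Filter.atTop, C ≤ (2 - c) * Real.log (Real.log (Real.log (y : ℝ))) :=
    (hlll.const_mul_atTop (by linarith)).eventually_ge_atTop _
  filter_upwards [hC, hbig] with y ⟨A, h1, h2, h3⟩ hb
  refine ⟨A, h1, h2, le_trans ?_ h3⟩
  have h4 : c * Real.log (Real.log (Real.log (y : ℝ))) * y / (Real.log y) ^ 2 ≤
      (2 * Real.log (Real.log (Real.log (y : ℝ))) - C) * y / (Real.log y) ^ 2 := by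
    gcongr
    linarith
  linarith

end RhoV
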