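import Pool.Agent.H7.RhoU.Surv

/-!
# Rankin's trick for the smooth parts: exponent slightly above `1/2`
-/

set_option autoImplicit false

open Finset Real
open Pool.Agent.H85.Rho hiding PP MM TT

namespace RhoV

open RhoU

/-! ### Local factors -/

theorem local_bd {p : ℕ} (hp : p.Prime) {s : ℝ} (hs1 : s ≤ 3 / 5) (M : ℕ) :
    ∑ k ∈ range (M + 1), hh p k * ((p : ℝ) ^ s) ^ k ≤ 1 + 5 * (p : ℝ) ^ (s - 1) := by
  have hp2 : (2 : ℝ) ≤ p := by exact_mod_cast hp.two_le
  have hp0 : (0 : ℝ) < p := by linarith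
  set x : ℝ := (p : ℝ) ^ (s - 1) with hx
  have hx0 : 0 < x := by positivity
  have hx1 : x ≤ 4 / 5 := by
    have h1 : x ≤ (2 : ℝ) ^ (s - 1) := by
      rw [hx]
      exact Real.rpow_le_rpow_of_nonpos (by norm_num) hp2 (by linarith)
    have h2 : (2 : ℝ) ^ (s - 1) ≤ (2 : ℝ) ^ (-(2 / 5) : ℝ) :=
      Real.rpow_le_rpow_of_exponent_le (by norm_num) (by linarith)
    have h3 : (2 : ℝ) ^ (-(2 / 5) : ℝ) ≤ 4 / 5 := by
      have h4 : ((2 : ℝ) ^ (-(2 / 5) : ℝ)) ^ 5 ≤ (4 / 5 : ℝ) ^ 5 := by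
        rw [← Real.rpow_natCast, ← Real.rpow_mul (by norm_num)]
        have : (-(2 / 5) : ℝ) * ((5 : ℕ) : ℝ) = ((-2 : ℤ) : ℝ) := by norm_num
        rw [this, Real.rpow_intCast]
        norm_num
      exact le_of_pow_le_pow_left₀ (by norm_num) (by norm_num) h4
    linarith
  rw [sum_range_succ']
  have h1 : ∑ k ∈ range M, hh p (k + 1) * ((p : ℝ) ^ s) ^ (k + 1) = x * ∑ k ∈ range M, x ^ k := by
    rw [mul_sum]
    refine sum_congr rfl fun k _ => ?_
    unfold hh
    rw [if_neg (Nat.succ_ne_zero k), ← inv_pow, ← mul_pow, ← pow_succ']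
    congr 1
    rw [hx, Real.rpow_sub hp0, Real.rpow_one]
    field_simp
  have h2 : hh p 0 * ((p : ℝ) ^ s) ^ 0 ≤ 1 := by
    unfold hh
    rw [if_pos rfl, pow_zero, mul_one, div_le_one (by linarith)]
    linarith
  have h3 : ∑ k ∈ range M, x ^ k ≤ 5 := by
    have h4 := geom_sum_mul_neg x M
    have h5 : 0 ≤ x ^ M := by positivity
    have h6 : 0 ≤ ∑ k ∈ range M, x ^ k := sum_nonneg fun k _ => by positivity
    nlinarith
  rw [h1]
  nlinarith

/-- Rankin's bound for the weighted smooth numbers -/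
theorem rankin (w M : ℕ) {s : ℝ} (hs1 : s ≤ 3 / 5) :
    ∑ m ∈ Sm w M, fw w m / m * (m : ℝ) ^ s ≤ Real.exp (5 * ∑ p ∈ pr 0 w, (p : ℝ) ^ (s - 1)) := by
  have h1 : ∑ m ∈ Sm w M, fw w m / m * (m : ℝ) ^ s ≤
      ∑ e ∈ Bx w M, fw w (mk w e) / (mk w e : ℝ) * ((mk w e : ℕ) : ℝ) ^ s := by
    rw [← sum_image (f := fun m : ℕ => fw w m / (m:ℝ) * (m : ℝ) ^ s) (g := mk w)
      (fun e _ e' _ h => mk_inj h)]
    refine sum_le_sum_of_subset_of_nonneg ?_ (fun m _ _ =>
          mul_nonneg (div_nonneg (fw_nonneg w m) (by positivity)) (by positivity))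
    intro m hm
    rw [mem_image]
    exact exists_mk w M m hm
  refine h1.trans ?_
  have h2 : ∀ e : PT w → ℕ, fw w (mk w e) / (mk w e : ℝ) * ((mk w e : ℕ) : ℝ) ^ s =
      ∏ i : PT w, (hh i (e i) * (((i : ℕ) : ℝ) ^ s) ^ (e i)) := by
    intro e
    rw [fw_mk, prod_mul_distrib]
    congr 1
    have h3 : (mk w e : ℝ) = ∏ i : PT w, ((i : ℕ) : ℝ) ^ e i := by
      unfold Pool.Agent.H85.Rho.mk
      push_cast
      rfl
    rw [h3, ← Real.finsetProd_rpow _ _ (fun i _ => by positivity)]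
    refine prod_congr rfl fun i _ => ?_
    rw [← Real.rpow_natCast, ← Real.rpow_mul (by positivity), ← Real.rpow_natCast,
      ← Real.rpow_mul (by positivity), mul_comm]
  simp_rw [h2]
  unfold Bx
  rw [← prod_univ_sum (fun _ : PT w => range (M + 1))
    (fun i k => hh i k * (((i : ℕ) : ℝ) ^ s) ^ k)]
  calc ∏ i : PT w, ∑ k ∈ range (M + 1), hh i k * (((i : ℕ) : ℝ) ^ s) ^ k ≤
      ∏ i : PT w, Real.exp (5 * ((i : ℕ) : ℝ) ^ (s - 1)) := by
        apply prod_le_prod
        · intro i _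
          exact sum_nonneg fun k _ => mul_nonneg (hh_nonneg (PT_prime i) k) (by positivity)
        · intro i _
          refine (local_bd (PT_prime i) hs1 M).trans ?_
          have := Real.add_one_le_exp (5 * ((i : ℕ) : ℝ) ^ (s - 1))
          linarith
    _ = Real.exp (5 * ∑ p ∈ pr 0 w, (p : ℝ) ^ (s - 1)) := by
        rw [← Real.exp_sum, ← mul_sum, sum_coe_sort (pr 0 w) (fun p : ℕ => (p : ℝ) ^ (s - 1))]

/-! ### Chebyshev -/

theorem theta_le (n : ℕ) : ∑ p ∈ pr 0 n, Real.log p ≤ 1.4 * n := by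
  have h := prod_pr_le 0 n
  have h1 : Real.log ((∏ l ∈ pr 0 n, l : ℕ) : ℝ) ≤ n * 1.4 := by
    rw [Real.log_le_iff_le_exp]
    · exact h
    · have : 0 < ∏ l ∈ pr 0 n, l := prod_pos fun p hp => (mem_pr.mp hp).2.pos
      exact_mod_cast this
  push_cast at h1
  rw [Real.log_prod (fun p hp => by exact_mod_cast (mem_pr.mp hp).2.ne_zero)] at h1
  linarith

theorem pr_succ (w : ℕ) (f : ℕ → ℝ) : ∑ p ∈ pr 0 (w + 1), f p =
    ∑ p ∈ pr 0 w, f p + if (w + 1).Prime then f (w + 1) else 0 := by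
  by_cases h : (w + 1).Prime
  · rw [if_pos h]
    have : pr 0 (w + 1) = insert (w + 1) (pr 0 w) := by
      ext p
      rw [mem_insert, mem_pr, mem_pr]
      constructor
      · rintro ⟨⟨h1, h2⟩, h3⟩
        by_cases h4 : p = w + 1
        · exact Or.inl h4
        · exact Or.inr ⟨⟨h1, by omega⟩, h3⟩
      · rintro (h1 | ⟨⟨h1, h2⟩, h3⟩)
        · subst h1; exact ⟨⟨by omega, le_rfl⟩, h⟩
        · exact ⟨⟨h1, by omega⟩, h3⟩
    rw [this, sum_insert, add_comm]
    rw [mem_pr]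
    omega
  · rw [if_neg h, add_zero]
    apply sum_congr _ (fun _ _ => rfl)
    ext p
    rw [mem_pr, mem_pr]
    constructor
    · rintro ⟨⟨h1, h2⟩, h3⟩
      refine ⟨⟨h1, ?_⟩, h3⟩
      by_contra h4
      have : p = w + 1 := by omega
      exact h (this ▸ h3)
    · rintro ⟨⟨h1, h2⟩, h3⟩
      exact ⟨⟨h1, by omega⟩, h3⟩

/-- partial summation, in the form of an induction -/
theorem sum_log_sqrt_aux (w : ℕ) (hw : 1 ≤ w) :
    ∑ p ∈ pr 0 w, Real.log p / Real.sqrt p - (∑ p ∈ pr 0 w, Real.log p) / Real.sqrt w ≤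
      1.4 * Real.sqrt w := by
  induction w, hw using Nat.le_induction with
  | base =>
    have : pr 0 1 = ∅ := by
      rw [eq_empty_iff_forall_notMem]
      intro p hp
      rw [mem_pr] at hp
      have h1 := hp.2.two_le
      have h2 := hp.1.2
      omega
    rw [this]
    simp
    norm_num
  | succ w hw ih =>
    have hw1 : (1 : ℝ) ≤ w := by exact_mod_cast hw
    have hs0 : 0 < Real.sqrt w := Real.sqrt_pos.mpr (by linarith)
    have hs1 : 0 < Real.sqrt ((w + 1 : ℕ) : ℝ) := Real.sqrt_pos.mpr (by positivity)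
    set a := Real.sqrt (w : ℝ) with ha
    set b := Real.sqrt ((w + 1 : ℕ) : ℝ) with hb
    have hab : a ≤ b := Real.sqrt_le_sqrt (by push_cast; linarith)
    have haa : a * a = w := Real.mul_self_sqrt (by positivity)
    rw [pr_succ w (fun p => Real.log p / Real.sqrt p), pr_succ w (fun p => Real.log p)]
    set θ := ∑ p ∈ pr 0 w, Real.log p with hθ
    have hθ1 : θ ≤ 1.4 * w := theta_le w
    have h1 : θ * (1 / a - 1 / b) ≤ 1.4 * (b - a) := by
      have h2 : 0 ≤ 1 / a - 1 / b := by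
        have := one_div_le_one_div_of_le hs0 hab
        linarith
      calc θ * (1 / a - 1 / b) ≤ 1.4 * w * (1 / a - 1 / b) := mul_le_mul_of_nonneg_right hθ1 h2
        _ = 1.4 * ((b - a) * (a / b)) := by rw [← haa]; field_simp
        _ ≤ 1.4 * ((b - a) * 1) := by
            apply mul_le_mul_of_nonneg_left _ (by norm_num)
            apply mul_le_mul_of_nonneg_left _ (by linarith)
            rw [div_le_one hs1]; exact hab
        _ = _ := by ring
    have e : θ * (1 / a - 1 / b) = θ / a - θ / b := by ring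
    rw [e] at h1
    by_cases h : (w + 1).Prime
    · rw [if_pos h, if_pos h, ← hb, add_div]
      linarith
    · rw [if_neg h, if_neg h, add_zero, add_zero]
      linarith

theorem sum_log_sqrt (w : ℕ) : ∑ p ∈ pr 0 w, Real.log p / Real.sqrt p ≤ 2.8 * Real.sqrt w := by
  rcases Nat.eq_zero_or_pos w with h | h
  · subst h
    have : pr 0 0 = ∅ := by
      rw [eq_empty_iff_forall_notMem]
      intro p hp
      rw [mem_pr] at hp
      omega
    rw [this]
    simp
  · have h1 := sum_log_sqrt_aux w h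
    have h2 := theta_le w
    have hw : (1 : ℝ) ≤ w := by exact_mod_cast h
    have hs0 : 0 < Real.sqrt w := Real.sqrt_pos.mpr (by linarith)
    have h3 : (∑ p ∈ pr 0 w, Real.log p) / Real.sqrt w ≤ 1.4 * Real.sqrt w := by
      rw [div_le_iff₀ hs0, mul_assoc, Real.mul_self_sqrt (by linarith)]
      exact h2
    linarith

theorem sum_inv_sqrt (w : ℕ) (hw : 2 ≤ w) :
    ∑ p ∈ pr 0 w, 1 / Real.sqrt p ≤ 26 * Real.sqrt w / Real.log w := by
  have hw2 : (2 : ℝ) ≤ w := by exact_mod_cast hw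
  have hlw : 0 < Real.log w := Real.log_pos (by linarith)
  set z := Nat.sqrt w with hz
  have hz1 : z * z ≤ w := Nat.sqrt_le w
  have hz2 : w < (z + 1) * (z + 1) := Nat.lt_succ_sqrt w
  have hzw : z ≤ w := Nat.sqrt_le_self w
  -- small primes
  have hsplit : ∑ p ∈ pr 0 w, 1 / Real.sqrt p = ∑ p ∈ pr 0 z, 1 / Real.sqrt p +
      ∑ p ∈ pr z w, 1 / Real.sqrt p := by
    rw [← sum_union]
    · apply sum_congr _ (fun _ _ => rfl)
      ext p
      rw [mem_union, mem_pr, mem_pr, mem_pr]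
      constructor
      · rintro ⟨⟨h1, h2⟩, h3⟩
        by_cases h4 : p ≤ z
        · exact Or.inl ⟨⟨h1, h4⟩, h3⟩
        · exact Or.inr ⟨⟨by omega, h2⟩, h3⟩
      · rintro (⟨⟨h1, h2⟩, h3⟩ | ⟨⟨h1, h2⟩, h3⟩)
        · exact ⟨⟨h1, by omega⟩, h3⟩
        · exact ⟨⟨by omega, h2⟩, h3⟩
    · rw [disjoint_left]
      intro p hp hp2
      rw [mem_pr] at hp hp2
      omega
  have hsmall : ∑ p ∈ pr 0 z, 1 / Real.sqrt p ≤ 5 * Real.sqrt z := by
    have h1 : ∑ p ∈ pr 0 z, 1 / Real.sqrt p ≤ ∑ p ∈ pr 0 z, 1.5 * (Real.log p / Real.sqrt p) := by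
      apply sum_le_sum
      intro p hp
      have hp2 : (2 : ℝ) ≤ p := by exact_mod_cast (mem_pr.mp hp).2.two_le
      have h2 : Real.log 2 ≤ Real.log p := Real.log_le_log (by norm_num) hp2
      have h3 := Real.log_two_gt_d9
      have h4 : 0 < Real.sqrt p := Real.sqrt_pos.mpr (by linarith)
      rw [← mul_div_assoc]
      apply div_le_div_of_nonneg_right _ h4.le
      linarith
    rw [← mul_sum] at h1
    have h2 := sum_log_sqrt z
    have h3 : 0 ≤ Real.sqrt (z : ℝ) := Real.sqrt_nonneg _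
    linarith
  have hlarge : ∑ p ∈ pr z w, 1 / Real.sqrt p ≤ 6 * Real.sqrt w / Real.log w := by
    have h1 : ∑ p ∈ pr z w, 1 / Real.sqrt p ≤
        ∑ p ∈ pr z w, 2 / Real.log w * (Real.log p / Real.sqrt p) := by
      apply sum_le_sum
      intro p hp
      have hpz := (mem_pr.mp hp).1.1
      have hp0 : (0 : ℝ) < p := by exact_mod_cast (mem_pr.mp hp).2.pos
      have h4 : 0 < Real.sqrt p := Real.sqrt_pos.mpr hp0
      have h5 : (w : ℝ) ≤ (p : ℝ) ^ 2 := by
        have : w ≤ p ^ 2 := by nlinarith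
        exact_mod_cast this
      have h6 : Real.log w ≤ 2 * Real.log p := by
        have := Real.log_le_log (by linarith) h5
        rw [Real.log_pow] at this
        exact_mod_cast this
      rw [← mul_div_assoc]
      apply div_le_div_of_nonneg_right _ h4.le
      rw [div_mul_eq_mul_div, le_div_iff₀ hlw]
      linarith
    rw [← mul_sum] at h1
    have h2 : ∑ p ∈ pr z w, Real.log p / Real.sqrt p ≤ ∑ p ∈ pr 0 w, Real.log p / Real.sqrt p := by
      apply sum_le_sum_of_subset_of_nonneg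
      · intro p hp
        rw [mem_pr] at hp ⊢
        exact ⟨⟨by omega, hp.1.2⟩, hp.2⟩
      · intro p _ _
        exact div_nonneg (Real.log_natCast_nonneg p) (Real.sqrt_nonneg _)
    have h3 := sum_log_sqrt w
    calc _ ≤ 2 / Real.log w * ∑ p ∈ pr z w, Real.log p / Real.sqrt p := h1
      _ ≤ 2 / Real.log w * (2.8 * Real.sqrt w) := by
          apply mul_le_mul_of_nonneg_left (h2.trans h3) (by positivity)
      _ = 5.6 * Real.sqrt w / Real.log w := by ring
      _ ≤ _ := by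
          apply div_le_div_of_nonneg_right _ hlw.le
          have := Real.sqrt_nonneg (w : ℝ)
          linarith
  have hmid : 5 * Real.sqrt z ≤ 20 * Real.sqrt w / Real.log w := by
    rw [le_div_iff₀ hlw]
    have h1 : (z : ℝ) ≤ Real.sqrt w := by
      apply Real.le_sqrt_of_sq_le
      have : z ^ 2 ≤ w := by nlinarith
      exact_mod_cast this
    have h2 : Real.sqrt z ≤ (w : ℝ) ^ (1 / 4 : ℝ) := by
      calc Real.sqrt z ≤ Real.sqrt (Real.sqrt w) := Real.sqrt_le_sqrt h1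
        _ = (w : ℝ) ^ (1 / 4 : ℝ) := by
            rw [Real.sqrt_eq_rpow, Real.sqrt_eq_rpow, ← Real.rpow_mul (by positivity)]
            norm_num
    have h3 : Real.log w ≤ (w : ℝ) ^ (1 / 4 : ℝ) / (1 / 4) :=
      Real.log_le_rpow_div (by positivity) (by norm_num)
    have h4 : (w : ℝ) ^ (1 / 4 : ℝ) * (w : ℝ) ^ (1 / 4 : ℝ) = Real.sqrt w := by
      rw [← Real.rpow_add (by positivity), Real.sqrt_eq_rpow]
      norm_num
    have h5 : 0 ≤ (w : ℝ) ^ (1 / 4 : ℝ) := by positivity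
    calc 5 * Real.sqrt z * Real.log w ≤ 5 * (w : ℝ) ^ (1 / 4 : ℝ) * ((w : ℝ) ^ (1 / 4 : ℝ) / (1 / 4)) := by
          apply mul_le_mul _ h3 hlw.le (by positivity)
          linarith
      _ = 20 * ((w : ℝ) ^ (1 / 4 : ℝ) * (w : ℝ) ^ (1 / 4 : ℝ)) := by ring
      _ = 20 * Real.sqrt w := by rw [h4]
  rw [hsplit]
  have e : 26 * Real.sqrt w / Real.log w = 20 * Real.sqrt w / Real.log w + 6 * Real.sqrt w / Real.log w := by
    ring
  rw [e]
  linarith

end RhoV
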