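import Pool.Agent.H7.RhoV.Tail

/-!
# The mass and the mean logarithm of the smooth parts up to `u^2 / v^2`
-/

set_option autoImplicit false

open Finset Real
open Pool.Agent.H85.Rho hiding PP MM TT

namespace RhoV

open RhoU

/-- the value of Rankin's bound -/
theorem ev_tail : ∀ᶠ v : ℝ in Filter.atTop, ∀ w M : ℕ, (w : ℝ) ≤ v ^ 2 / 10 ^ 6 → v ≤ w →
    Real.exp (2 * v) / (2 * v ^ 2) ≤ M →
    ∃ s : ℝ, 1 / 2 ≤ s ∧ s ≤ 3 / 5 ∧
      Real.exp (5 * ∑ p ∈ pr 0 w, (p : ℝ) ^ (s - 1)) / (M : ℝ) ^ s ≤ Real.exp (-v) / v ^ 2 := by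
  have e1 : ∀ᶠ v : ℝ in Filter.atTop, (3 : ℝ) * (Real.log v) ^ 2 + 4 * Real.log v ≤ v := by
    have h1 := (isLittleO_pow_log_id_atTop (n := 2)).bound (c := 1 / 6) (by norm_num)
    have h2 := (isLittleO_log_id_atTop).bound (c := 1 / 8) (by norm_num)
    filter_upwards [h1, h2, Filter.eventually_ge_atTop 1] with v h3 h4 h5
    simp only [id, Real.norm_eq_abs] at h3 h4
    rw [abs_of_nonneg (show 0 ≤ v by linarith)] at h3 h4
    have h6 := (le_abs_self _).trans h3
    have h7 := (le_abs_self _).trans h4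
    linarith
  filter_upwards [e1, Filter.eventually_ge_atTop (Real.exp 10)] with v hv1 hv2 w M hw1 hw2 hM
  have hv0 : 0 < v := lt_of_lt_of_le (Real.exp_pos _) hv2
  set L := Real.log v with hL
  have hL10 : 10 ≤ L := by
    rw [hL, Real.le_log_iff_exp_le hv0]; exact hv2
  have hL0 : 0 < L := by linarith
  have hv10 : 2 ≤ v := by
    have := Real.add_one_le_exp (10 : ℝ)
    linarith
  have hexpL : Real.exp L = v := Real.exp_log hv0
  refine ⟨1 / 2 + 1 / L, ?_, ?_, ?_⟩
  · have : 0 < 1 / L := by positivity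
    linarith
  · have : 1 / L ≤ 1 / 10 := one_div_le_one_div_of_le (by norm_num) hL10
    linarith
  · have hwv : (w : ℝ) ≤ v ^ 2 := by
      have : v ^ 2 / 10 ^ 6 ≤ v ^ 2 := div_le_self (by positivity) (by norm_num)
      linarith
    have hw2' : (2 : ℝ) ≤ w := by linarith
    have hw2N : 2 ≤ w := by exact_mod_cast hw2'
    have he2 : Real.exp 2 ≤ 7.4 := by
      have e : Real.exp 2 = Real.exp 1 * Real.exp 1 := by rw [← Real.exp_add]; norm_num
      have h1 := Real.exp_one_lt_d9
      have h0 := Real.exp_pos 1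
      rw [e]
      nlinarith
    have hsum : ∑ p ∈ pr 0 w, (p : ℝ) ^ ((1 / 2 + 1 / L) - 1) ≤
        Real.exp 2 * ∑ p ∈ pr 0 w, 1 / Real.sqrt p := by
      rw [mul_sum]
      apply sum_le_sum
      intro p hp
      have hpp := mem_pr.mp hp
      have hp0 : (0 : ℝ) < p := by exact_mod_cast hpp.2.pos
      have hp1 : (1 : ℝ) ≤ p := by exact_mod_cast hpp.2.pos
      have hpw : (p : ℝ) ≤ w := by exact_mod_cast hpp.1.2
      have h1 : Real.log p ≤ 2 * L := by
        have h2 := Real.log_le_log hp0 (hpw.trans hwv)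
        rw [Real.log_pow] at h2
        exact_mod_cast h2
      have h3 : (p : ℝ) ^ (1 / L) ≤ Real.exp 2 := by
        rw [Real.rpow_def_of_pos hp0]
        apply Real.exp_le_exp.mpr
        rw [mul_one_div, div_le_iff₀ hL0]
        exact h1
      have h4 : (p : ℝ) ^ ((1 / 2 + 1 / L) - 1) = (p : ℝ) ^ (1 / L) * (1 / Real.sqrt p) := by
        rw [show (1 / 2 + 1 / L) - 1 = 1 / L + (-(1 / 2) : ℝ) by ring, Real.rpow_add hp0,
          Real.rpow_neg hp0.le, ← Real.sqrt_eq_rpow, one_div (Real.sqrt _)]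
      rw [h4]
      apply mul_le_mul_of_nonneg_right h3 (by positivity)
    have hinv := sum_inv_sqrt w hw2N
    have hsq : Real.sqrt w ≤ v / 1000 := by
      rw [show v / 1000 = Real.sqrt ((v / 1000) ^ 2) from (Real.sqrt_sq (by positivity)).symm]
      apply Real.sqrt_le_sqrt
      calc (w : ℝ) ≤ v ^ 2 / 10 ^ 6 := hw1
        _ = (v / 1000) ^ 2 := by ring
    have hlw : L ≤ Real.log w := Real.log_le_log hv0 hw2
    have h5 : 5 * ∑ p ∈ pr 0 w, (p : ℝ) ^ ((1 / 2 + 1 / L) - 1) ≤ v / L := by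
      have h6 : 26 * Real.sqrt w / Real.log w ≤ 26 * (v / 1000) / L := by gcongr
      have h7 : Real.exp 2 * ∑ p ∈ pr 0 w, 1 / Real.sqrt p ≤ 7.4 * (26 * (v / 1000) / L) := by
        apply mul_le_mul he2 (hinv.trans h6) (sum_nonneg fun _ _ => by positivity) (by norm_num)
      have h8 : 7.4 * (26 * (v / 1000) / L) = 0.1924 * (v / L) := by ring
      have h9 : 0 ≤ v / L := by positivity
      rw [h8] at h7
      linarith
    -- the power of `M`
    have hMpos : 0 < Real.exp (2 * v) / (2 * v ^ 2) := by positivity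
    have hM0 : (0 : ℝ) < M := lt_of_lt_of_le hMpos hM
    have hlogM : 2 * v - 2 * L - 1 ≤ Real.log M := by
      have h6 := Real.log_le_log hMpos hM
      rw [Real.log_div (Real.exp_pos _).ne' (by positivity), Real.log_exp,
        Real.log_mul (by norm_num) (by positivity), Real.log_pow] at h6
      have := Real.log_two_lt_d9
      push_cast at h6
      linarith
    have h10 : v + 2 * (v / L) - L - 4 ≤ (1 / 2 + 1 / L) * Real.log M := by
      have h11 : (1 / 2 + 1 / L) * (2 * v - 2 * L - 1) ≤ (1 / 2 + 1 / L) * Real.log M :=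
        mul_le_mul_of_nonneg_left hlogM (by positivity)
      have h12 : (1 / 2 + 1 / L) * (2 * v - 2 * L - 1) = v + 2 * (v / L) - L - 2 - 1 / 2 - 1 / L := by
        field_simp
        ring
      have h13 : 1 / L ≤ 1 / 10 := one_div_le_one_div_of_le (by norm_num) hL10
      linarith
    rw [Real.rpow_def_of_pos hM0, ← Real.exp_sub, show v ^ 2 = Real.exp (2 * L) by
      rw [← hexpL, ← Real.exp_nat_mul]; push_cast; rfl, ← Real.exp_sub]
    apply Real.exp_le_exp.mpr
    have h14 : 3 * L + 4 ≤ v / L := by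
      rw [le_div_iff₀ hL0]
      nlinarith
    have h15 : Real.log M * (1 / 2 + 1 / L) = (1 / 2 + 1 / L) * Real.log M := by ring
    rw [h15]
    linarith

/-- consequences of Rankin's bound -/
theorem tails {w M : ℕ} {s B : ℝ} (hM : 1 ≤ M) (hs0 : 1 / 2 ≤ s) (hs1 : s ≤ 3 / 5)
    (hB : Real.exp (5 * ∑ p ∈ pr 0 w, (p : ℝ) ^ (s - 1)) / (M : ℝ) ^ s ≤ B) :
    (∀ N : ℕ, ∑ m ∈ (Sm w N).filter (fun m => M < m), fw w m / m ≤ B) ∧
    (∀ N : ℕ, ∑ m ∈ (Sm w N).filter (fun m => M < m), fw w m / m * Real.log m ≤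
      (Real.log M + 2) * B) ∧
    ∑ m ∈ Sm w M, fw w m ≤ M * B := by
  have hM1 : (1 : ℝ) ≤ M := by exact_mod_cast hM
  have hM0 : (0 : ℝ) < M := by linarith
  have hMs : 0 < (M : ℝ) ^ s := by positivity
  have hs : 0 < s := by linarith
  have key : ∀ N : ℕ, ∑ m ∈ Sm w N, fw w m / m * ((m : ℝ) / M) ^ s ≤ B := by
    intro N
    refine le_trans (le_of_eq ?_) ((div_le_div_of_nonneg_right (rankin w N hs1) hMs.le).trans hB)
    rw [sum_div]
    apply sum_congr rfl
    intro m _
    rw [Real.div_rpow (by positivity) hM0.le]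
    ring
  have hlogM : 0 ≤ Real.log M := Real.log_nonneg hM1
  refine ⟨fun N => ?_, fun N => ?_, ?_⟩
  · refine le_trans ?_ (key N)
    refine (sum_le_sum (f := fun m : ℕ => fw w m / m)
      (g := fun m : ℕ => fw w m / m * ((m : ℝ) / M) ^ s) fun m hm => ?_).trans ?_
    · rw [mem_filter] at hm
      have h1 : (1 : ℝ) ≤ (m : ℝ) / M := by
        rw [le_div_iff₀ hM0, one_mul]; exact_mod_cast hm.2.le
      have h2 : 1 ≤ ((m : ℝ) / M) ^ s := Real.one_le_rpow h1 hs.le
      exact le_mul_of_one_le_right (div_nonneg (fw_nonneg w m) (by positivity)) h2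
    · apply sum_le_sum_of_subset_of_nonneg (filter_subset _ _)
      intro m _ _
      exact mul_nonneg (div_nonneg (fw_nonneg w m) (by positivity)) (by positivity)
  · have h0 : ∑ m ∈ (Sm w N).filter (fun m => M < m), fw w m / m * Real.log m ≤
        (Real.log M + 2) * ∑ m ∈ Sm w N, fw w m / m * ((m : ℝ) / M) ^ s := by
      rw [mul_sum]
      refine (sum_le_sum (f := fun m : ℕ => fw w m / m * Real.log m)
        (g := fun m : ℕ => (Real.log M + 2) * (fw w m / m * ((m : ℝ) / M) ^ s))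
        fun m hm => ?_).trans ?_
      · rw [mem_filter] at hm
        have hm0 : (0 : ℝ) < m := by
          have : 0 < m := by omega
          exact_mod_cast this
        have h1 : (1 : ℝ) ≤ (m : ℝ) / M := by
          rw [le_div_iff₀ hM0, one_mul]; exact_mod_cast hm.2.le
        have h2 : 1 ≤ ((m : ℝ) / M) ^ s := Real.one_le_rpow h1 hs.le
        have h3 : Real.log m = Real.log M + Real.log ((m : ℝ) / M) := by
          rw [Real.log_div hm0.ne' hM0.ne']; ring
        have h4 : Real.log ((m : ℝ) / M) ≤ ((m : ℝ) / M) ^ s / s :=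
          Real.log_le_rpow_div (by positivity) hs
        have h5 : ((m : ℝ) / M) ^ s / s ≤ 2 * ((m : ℝ) / M) ^ s := by
          rw [div_le_iff₀ hs]
          nlinarith
        have h6 : Real.log m ≤ (Real.log M + 2) * ((m : ℝ) / M) ^ s := by
          rw [h3]
          nlinarith
        calc fw w m / m * Real.log m ≤ fw w m / m * ((Real.log M + 2) * ((m : ℝ) / M) ^ s) :=
              mul_le_mul_of_nonneg_left h6 (div_nonneg (fw_nonneg w m) (by positivity))
          _ = _ := by ring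
      · apply sum_le_sum_of_subset_of_nonneg (filter_subset _ _)
        intro m _ _
        exact mul_nonneg (by linarith)
          (mul_nonneg (div_nonneg (fw_nonneg w m) (by positivity)) (by positivity))
    refine h0.trans ?_
    exact mul_le_mul_of_nonneg_left (key N) (by linarith)
  · have h0 : ∑ m ∈ Sm w M, fw w m ≤ M * ∑ m ∈ Sm w M, fw w m / m * ((m : ℝ) / M) ^ s := by
      rw [mul_sum]
      apply sum_le_sum
      intro m hm
      rw [mem_Sm] at hm
      have hm1 : (1 : ℝ) ≤ m := by exact_mod_cast hm.1.1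
      have hm0 : (0 : ℝ) < m := by linarith
      have h1 : (m : ℝ) / M ≤ 1 := by
        rw [div_le_one hM0]; exact_mod_cast hm.1.2
      have h2 : (m : ℝ) / M ≤ ((m : ℝ) / M) ^ s := by
        calc (m : ℝ) / M = ((m : ℝ) / M) ^ (1 : ℝ) := (Real.rpow_one _).symm
          _ ≤ _ := Real.rpow_le_rpow_of_exponent_ge (by positivity) h1 (by linarith)
      calc fw w m = M * (fw w m / m * ((m : ℝ) / M)) := by field_simp
        _ ≤ M * (fw w m / m * ((m : ℝ) / M) ^ s) := by
            apply mul_le_mul_of_nonneg_left _ hM0.le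
            exact mul_le_mul_of_nonneg_left h2 (div_nonneg (fw_nonneg w m) hm0.le)
    exact h0.trans (mul_le_mul_of_nonneg_left (key M) hM0.le)

theorem split_le (w M N : ℕ) (f : ℕ → ℝ) (hf : ∀ m, 1 ≤ m → 0 ≤ f m) :
    ∑ m ∈ Sm w N, f m ≤ ∑ m ∈ Sm w M, f m + ∑ m ∈ (Sm w N).filter (fun m => M < m), f m := by
  rw [← sum_filter_add_sum_filter_not (Sm w N) (fun m => m ≤ M)]
  apply add_le_add
  · apply sum_le_sum_of_subset_of_nonneg
    · intro m hm
      rw [mem_filter, mem_Sm] at hm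
      exact mem_Sm.mpr ⟨⟨hm.1.1.1, hm.2⟩, hm.1.2⟩
    · intro m hm _
      exact hf m (mem_Sm.mp hm).1.1
  · apply le_of_eq
    apply sum_congr _ (fun _ _ => rfl)
    apply filter_congr
    intro m _
    omega

/-- the mass -/
theorem mass_v {w M : ℕ} {B : ℝ}
    (h : ∀ N : ℕ, ∑ m ∈ (Sm w N).filter (fun m => M < m), fw w m / m ≤ B) :
    1 - B ≤ ∑ m ∈ Sm w M, fw w m / m := by
  have key : ∀ R : ℕ, 1 - B ≤ ∑ m ∈ Sm w M, fw w m / m + w * ((2:ℝ) ^ R)⁻¹ := by
    intro R
    have hb := box_mass w R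
    have h1 : ∑ e ∈ Bx w R, fw w (mk w e) / (mk w e : ℝ) ≤
        ∑ m ∈ Sm w (4 ^ (w * R)), fw w m / m := by
      rw [← sum_image (f := fun m : ℕ => fw w m / (m:ℝ)) (g := mk w)
          (fun e _ e' _ h => mk_inj h)]
      refine sum_le_sum_of_subset_of_nonneg ?_ (fun m _ _ =>
          div_nonneg (fw_nonneg w m) (by positivity))
      intro m hm
      rw [mem_image] at hm
      obtain ⟨e, he, rfl⟩ := hm
      exact mk_mem e _ (mk_le w R e he)
    have h2 := split_le w M (4 ^ (w * R)) (fun m => fw w m / m)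
      (fun m _ => div_nonneg (fw_nonneg w m) (by positivity))
    have h3 := h (4 ^ (w * R))
    linarith
  have hlim : Filter.Tendsto (fun R : ℕ => ∑ m ∈ Sm w M, fw w m / (m:ℝ) + w * ((2:ℝ) ^ R)⁻¹)
      Filter.atTop (nhds (∑ m ∈ Sm w M, fw w m / (m:ℝ) + w * 0)) := by
    refine Filter.Tendsto.const_add _ (Filter.Tendsto.const_mul _ ?_)
    have := tendsto_pow_atTop_nhds_zero_of_lt_one (r := (1/2:ℝ)) (by norm_num) (by norm_num)
    refine this.congr fun R => ?_
    rw [one_div, inv_pow]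
  rw [mul_zero, add_zero] at hlim
  exact ge_of_tendsto' hlim key

/-- the mean logarithm -/
theorem gain_v : ∃ C : ℝ, 0 < C ∧ ∀ (w M : ℕ) (B : ℝ), 1 ≤ w →
    (∀ N : ℕ, ∑ m ∈ (Sm w N).filter (fun m => M < m), fw w m / m * Real.log m ≤ B) →
    Real.log w - C - B ≤ ∑ m ∈ Sm w M, fw w m / m * Real.log m := by
  obtain ⟨C, hC, h⟩ := gain
  refine ⟨C, hC, fun w M B hw hB => ?_⟩
  have h1 := h w (4 ^ (w * w)) hw le_rfl
  have h2 := split_le w M (4 ^ (w * w)) (fun m => fw w m / m * Real.log m)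
      (fun m hm => mul_nonneg (div_nonneg (fw_nonneg w m) (by positivity))
        (Real.log_nonneg (by exact_mod_cast hm)))
  have h3 := hB (4 ^ (w * w))
  linarith

end RhoV
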